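import Pool.Agent.Helper73.F2.St

/-! Project F2 (MP_7b75b3_co), module LEF: parity of the odd degree vertices in a component. -/

set_option autoImplicit false

namespace Pool.Agent.Helper38.F2

open _root_.F2 Finset

/-- Two distinct neighbours in `G`, each in `Θ` or a mate. -/
lemma two_nb (hATT : StATT) {V κ : Type} [Fintype V] [DecidableEq V] [Fintype κ] [DecidableEq κ]
    (G : SimpleGraph V) (b : V → κ) (X : Finset V) (P : Finset κ) (hD : Deg2 G) (hF : Four b)
    (hP : Prot G b X P) (Θ : Finset V) (x : V)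
    (h : ∃ y ∈ Θ, ∃ z ∈ Θ, (HS G b X P).Adj x y ∧ (HS G b X P).Adj x z ∧ y ≠ z) :
    Star b X P x ∧ ∃ n₁ n₂, n₁ ≠ n₂ ∧ G.Adj x n₁ ∧ G.Adj x n₂ ∧ (n₁ ∈ Θ ∨ Mate b X P n₁) ∧
      (n₂ ∈ Θ ∨ Mate b X P n₂) := by
  obtain ⟨y, hy, z, hz, h1, h2, hyz⟩ := h
  obtain ⟨_, hsx, hsy, n₁, hn₁, ha₁⟩ := h1
  obtain ⟨_, _, hsz, n₂, hn₂, ha₂⟩ := h2
  refine ⟨hsx, n₁, n₂, ?_, hn₁, hn₂, ?_, ?_⟩
  · intro he
    subst he
    exact hyz (hATT V κ G b X P hD hF hP n₁ y z hsy hsz ha₁ ha₂)
  · rcases ha₁ with rfl | ⟨hm, _⟩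
    · exact Or.inl hy
    · exact Or.inr hm
  · rcases ha₂ with rfl | ⟨hm, _⟩
    · exact Or.inl hz
    · exact Or.inr hm

theorem hLEF : StLEF := by
  intro hATT V κ _ _ _ _ G b X P hD hF hG hP Θ hΘ
  by_contra hcon
  push Not at hcon
  have key : ∀ x ∈ Θ, Star b X P x ∧ ∃ n₁ n₂, n₁ ≠ n₂ ∧ G.Adj x n₁ ∧ G.Adj x n₂ ∧
      (n₁ ∈ Θ ∨ Mate b X P n₁) ∧ (n₂ ∈ Θ ∨ Mate b X P n₂) := by
    intro x hx
    obtain ⟨y, hy, z, hz, h1, h2, h3⟩ := hcon x hx
    exact two_nb hATT G b X P hD hF hP Θ x ⟨y, hy, z, hz, h1, h2, h3⟩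
  have hstar : ∀ x ∈ Θ, Star b X P x := fun x hx => (key x hx).1
  have hnm : ∀ x ∈ Θ, ¬ Mate b X P x := fun x hx hm => (hstar x hx).2 hm.1
  have hnb : ∀ x ∈ Θ, ∀ m, G.Adj x m → m ∈ Θ ∨ Mate b X P m := by
    intro x hx m hm
    obtain ⟨_, n₁, n₂, hne, h1, h2, h3, h4⟩ := key x hx
    rcases hD x m n₁ n₂ hm h1 h2 with h | h | h
    · exact h ▸ h3
    · exact h ▸ h4
    · exact absurd h hne
  obtain ⟨x₀, hx₀⟩ := hΘ
  by_cases hc : ∃ x ∈ Θ, G.Reachable x₀ x ∧ ∃ a, Mate b X P a ∧ G.Adj x a
  · obtain ⟨x, hx, hrx, a, ha, hxa⟩ := hc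
    classical
    set A : Finset V := Θ.filter (fun v => G.Reachable x₀ v) with hA
    have hxA : x ∈ A := by simp [hA, hx, hrx]
    have hra : G.Reachable x₀ a := hrx.trans hxa.reachable
    let H : SimpleGraph V :=
      { Adj := fun u v => u ∈ A ∧ v ∈ A ∧ G.Adj u v
        symm := ⟨fun u v h => ⟨h.2.1, h.1, h.2.2.symm⟩⟩
        loopless := ⟨fun u h => G.loopless.irrefl u h.2.2⟩ }
    have hHadj : ∀ u v, H.Adj u v ↔ (u ∈ A ∧ v ∈ A ∧ G.Adj u v) := fun u v => Iff.rfl
    have hmate : ∀ v ∈ A, ∀ m, G.Adj v m → Mate b X P m → m = a := by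
      intro v hv m hvm hm
      have hrv : G.Reachable x₀ v := (Finset.mem_filter.mp hv).2
      exact hP.sep m a hm ha ((hrv.trans hvm.reachable).symm.trans hra)
    have hAof : ∀ v ∈ A, ∀ m, G.Adj v m → m ∈ Θ → m ∈ A := by
      intro v hv m hvm hm
      have hrv : G.Reachable x₀ v := (Finset.mem_filter.mp hv).2
      exact Finset.mem_filter.mpr ⟨hm, hrv.trans hvm.reachable⟩
    have hAΘ : ∀ v ∈ A, v ∈ Θ := fun v hv => (Finset.mem_filter.mp hv).1
    -- degree of x
    have hdx : H.degree x = 1 := by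
      obtain ⟨_, n₁, n₂, hne, h1, h2, h3, h4⟩ := key x hx
      have hgen : ∀ m n, m ≠ n → G.Adj x m → G.Adj x n → m = a → (n ∈ Θ ∨ Mate b X P n) →
          H.degree x = 1 := by
        intro m n hmn hm hn hma hn'
        have hnΘ : n ∈ Θ := by
          rcases hn' with h | h
          · exact h
          · exact absurd (hma.trans (hmate x hxA n hn h).symm) hmn
        have hnf : H.neighborFinset x = {n} := by
          ext w
          rw [SimpleGraph.mem_neighborFinset, hHadj, Finset.mem_singleton]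
          constructor
          · rintro ⟨_, hw, hxw⟩
            rcases hD x w m n hxw hm hn with h | h | h
            · exfalso
              rw [h, hma] at hw
              exact hnm a (hAΘ a hw) ha
            · exact h
            · exact absurd h hmn
          · rintro rfl
            exact ⟨hxA, hAof x hxA _ hn hnΘ, hn⟩
        rw [← SimpleGraph.card_neighborFinset_eq_degree, hnf, Finset.card_singleton]
      rcases hD x a n₁ n₂ hxa h1 h2 with h | h | h
      · exact hgen n₁ n₂ hne h1 h2 h.symm h4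
      · exact hgen n₂ n₁ hne.symm h2 h1 h.symm h3
      · exact absurd h hne
    have hdv : ∀ v, v ≠ x → Even (H.degree v) := by
      intro v hvx
      by_cases hv : v ∈ A
      · obtain ⟨_, n₁, n₂, hne, h1, h2, h3, h4⟩ := key v (hAΘ v hv)
        obtain ⟨w, hwX, haw⟩ := hP.near a ha
        have hnot : ∀ m, G.Adj v m → (m ∈ Θ ∨ Mate b X P m) → m ∈ A := by
          intro m hm hm'
          rcases hm' with h | h
          · exact hAof v hv m hm h
          · exfalso
            have hma := hmate v hv m hm h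
            rw [hma] at hm
            rcases hD a x v w hxa.symm hm.symm haw with h5 | h5 | h5
            · exact hvx h5.symm
            · exact (hstar x hx).1 (h5 ▸ hwX)
            · exact (hstar v (hAΘ v hv)).1 (h5 ▸ hwX)
        have hnf : H.neighborFinset v = {n₁, n₂} := by
          ext w
          rw [SimpleGraph.mem_neighborFinset, hHadj, Finset.mem_insert, Finset.mem_singleton]
          constructor
          · rintro ⟨_, hw, hxw⟩
            rcases hD v w n₁ n₂ hxw h1 h2 with h | h | h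
            · exact Or.inl h
            · exact Or.inr h
            · exact absurd h hne
          · rintro (rfl | rfl)
            · exact ⟨hv, hnot _ h1 h3, h1⟩
            · exact ⟨hv, hnot _ h2 h4, h2⟩
        rw [← SimpleGraph.card_neighborFinset_eq_degree, hnf, Finset.card_pair hne]
        exact even_two
      · have hnf : H.neighborFinset v = ∅ := by
          ext w
          rw [SimpleGraph.mem_neighborFinset, hHadj]
          simp [hv]
        rw [← SimpleGraph.card_neighborFinset_eq_degree, hnf, Finset.card_empty]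
        exact Even.zero
    have heven := H.even_card_odd_degree_vertices
    have hset : (Finset.univ.filter (fun v => Odd (H.degree v))) = {x} := by
      ext v
      rw [Finset.mem_filter, Finset.mem_singleton]
      constructor
      · rintro ⟨_, hv⟩
        by_contra hvx
        exact (Nat.not_even_iff_odd.mpr hv) (hdv v hvx)
      · rintro rfl
        refine ⟨Finset.mem_univ _, ?_⟩
        rw [hdx]
        exact odd_one
    rw [hset, Finset.card_singleton] at heven
    exact Nat.not_even_one heven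
  · push Not at hc
    have hclosed : ∀ y, G.Reachable x₀ y → y ∈ Θ := by
      intro y hy
      obtain ⟨p⟩ := hy
      have : ∀ (u v : V) (p : G.Walk u v), G.Reachable x₀ u → u ∈ Θ → v ∈ Θ := by
        intro u v p
        induction p with
        | nil => exact fun _ h => h
        | cons hadj q ih =>
          rename_i u' v' w'
          intro hr hu
          refine ih (hr.trans hadj.reachable) ?_
          rcases hnb _ hu _ hadj with h | h
          · exact h
          · exact absurd hadj (hc _ hu hr _ h)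
      exact this x₀ y p (SimpleGraph.Reachable.refl x₀) hx₀
    have hcyc : Cyc G x₀ := by
      intro y hy
      obtain ⟨_, n₁, n₂, hne, h1, h2, _, _⟩ := key y (hclosed y hy)
      exact ⟨n₁, n₂, hne, h1, h2⟩
    obtain ⟨z, hzX, hz⟩ := hG.cyc x₀ hcyc
    exact (hstar z (hclosed z hz)).1 hzX

end Pool.Agent.Helper38.F2
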